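import Mathlib

/-!
# Project PR: an explicit kernel whose Fourier transform has compact support, general facts
-/

set_option autoImplicit false

open Complex Filter Topology MeasureTheory

namespace Pool.Agent.Q124.PR

/-- if the cosine transform vanishes for `|s| ≥ δ`, so does its derivative -/
lemma deriv_cos {K : ℝ → ℝ} (hK : Continuous K) (hK0 : ∀ v, 0 ≤ K v) (hi : Integrable fun v => (1 + v ^ 2) * K v) {δ : ℝ}
    (h : ∀ s : ℝ, δ ≤ |s| → ∫ v : ℝ, K v * Real.cos (s * v) = 0) (s : ℝ) (hs : δ ≤ |s|) :
    ∫ v : ℝ, K v * (v * Real.sin (s * v)) = 0 := by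
  have hKi : Integrable K := by
    refine hi.mono' hK.aestronglyMeasurable (Eventually.of_forall fun v => ?_)
    rw [Real.norm_of_nonneg (hK0 v)]
    nlinarith [hK0 v, sq_nonneg v, mul_nonneg (sq_nonneg v) (hK0 v)]
  have hd : HasDerivAt (fun s => ∫ v : ℝ, K v * Real.cos (s * v)) (∫ v : ℝ, K v * (-Real.sin (s * v) * v)) s := by
    refine (hasDerivAt_integral_of_dominated_loc_of_deriv_le (μ := volume) (s := Set.univ)
      (F := fun s v => K v * Real.cos (s * v)) (F' := fun s v => K v * (-Real.sin (s * v) * v)) (x₀ := s)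
      (bound := fun v => (1 + v ^ 2) * K v) univ_mem ?_ ?_ ?_ ?_ hi ?_).2
    · exact Eventually.of_forall fun x => by
        have : Continuous fun v => K v * Real.cos (x * v) := by fun_prop
        exact this.aestronglyMeasurable
    · refine hKi.mono' ?_ (Eventually.of_forall fun v => ?_)
      · have : Continuous fun v => K v * Real.cos (s * v) := by fun_prop
        exact this.aestronglyMeasurable
      · rw [norm_mul, Real.norm_of_nonneg (hK0 v)]
        exact mul_le_of_le_one_right (hK0 v) (Real.abs_cos_le_one _)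
    · have : Continuous fun v => K v * (-Real.sin (s * v) * v) := by fun_prop
      exact this.aestronglyMeasurable
    · refine Eventually.of_forall fun v x _ => ?_
      rw [norm_mul, Real.norm_of_nonneg (hK0 v), norm_mul, norm_neg, mul_comm]
      refine mul_le_mul_of_nonneg_right ?_ (hK0 v)
      have h1 : ‖Real.sin (x * v)‖ ≤ 1 := Real.abs_sin_le_one _
      have h2 : ‖v‖ ≤ 1 + v ^ 2 := by
        rw [Real.norm_eq_abs]
        have := sq_nonneg (|v| - 1)
        have h4 := sq_abs v
        nlinarith
      calc ‖Real.sin (x * v)‖ * ‖v‖ ≤ 1 * (1 + v ^ 2) := mul_le_mul h1 h2 (norm_nonneg _) zero_le_one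
        _ = 1 + v ^ 2 := one_mul _
    · refine Eventually.of_forall fun v x _ => ?_
      have h1 : HasDerivAt (fun x : ℝ => x * v) v x := by simpa using (hasDerivAt_id x).mul_const v
      exact (h1.cos).const_mul (K v)
  have key : ∫ v : ℝ, K v * (-Real.sin (s * v) * v) = 0 := by
    rcases le_or_gt 0 s with h0 | h0
    · rw [abs_of_nonneg h0] at hs
      have h1 : HasDerivWithinAt (fun s => ∫ v : ℝ, K v * Real.cos (s * v)) 0 (Set.Ici s) s := by
        refine (hasDerivWithinAt_const s (Set.Ici s) (0 : ℝ)).congr (fun x hx => ?_) ?_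
        · exact h x (by rw [abs_of_nonneg (h0.trans hx)]; exact hs.trans hx)
        · exact h s (by rw [abs_of_nonneg h0]; exact hs)
      exact (uniqueDiffWithinAt_Ici s).eq_deriv _ hd.hasDerivWithinAt h1
    · rw [abs_of_neg h0] at hs
      have h1 : HasDerivWithinAt (fun s => ∫ v : ℝ, K v * Real.cos (s * v)) 0 (Set.Iic s) s := by
        refine (hasDerivWithinAt_const s (Set.Iic s) (0 : ℝ)).congr (fun x hx => ?_) ?_
        · have hx' : x ≤ s := hx
          exact h x (by rw [abs_of_nonpos (hx'.trans h0.le)]; linarith)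
        · exact h s (by rw [abs_of_neg h0]; exact hs)
      exact (uniqueDiffWithinAt_Iic s).eq_deriv _ hd.hasDerivWithinAt h1
  have e : ∀ v, K v * (v * Real.sin (s * v)) = -(K v * (-Real.sin (s * v) * v)) := fun v => by ring
  simp only [e]
  rw [integral_neg, key, neg_zero]

end Pool.Agent.Q124.PR
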