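import Pool.Agent.Q240.PR.Stm
import Pool.Agent.Q124.PR.Cos

/-!
# Project PR: kernels with a spectral gap
-/

set_option autoImplicit false

open Complex Filter Topology MeasureTheory
open Pool.Agent.Y23 (tent TT Fa)

namespace Pool.Agent.Q124.PR

lemma tent_zero {b x : ℝ} (hb : 0 < b) (hx : b ≤ |x|) : tent b x = 0 := by
  unfold tent
  split_ifs with h
  · rw [le_antisymm h hx, div_self hb.ne', sub_self]
  · rfl

lemma tent_pos {b x : ℝ} (hb : 0 < b) (hx : |x| < b) : 0 < tent b x := by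
  unfold tent
  rw [if_pos hx.le, sub_pos, div_lt_one hb]
  exact hx

/-- the kernel -/
noncomputable def KK (b v : ℝ) : ℝ := ‖TT (fun x => (tent b x : ℂ)) (v * I)‖ ^ 2

lemma KK_cont {b : ℝ} (hb : 0 < b) : Continuous (KK b) := by
  have h := (Pool.Agent.Y23.differentiable_TT (Pool.Agent.Y23.Fa_tent hb)).continuous
  unfold KK
  exact (h.comp (by fun_prop)).norm.pow 2

lemma KK_mul {b : ℝ} (hb : 0 < b) (v : ℝ) : v ^ 4 * KK b v = (2 * (1 - Real.cos (b * v)) / b) ^ 2 := by
  have h := Pool.Agent.Y23.TT_tent hb (v * I)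
  have e1 : cexp (b * (v * I)) + cexp (-(b * (v * I))) - 2 = ((2 * (Real.cos (b * v) - 1) : ℝ) : ℂ) := by
    have h2 : (b * (v * I) : ℂ) = ((b * v : ℝ) : ℂ) * I := by push_cast; ring
    rw [h2, ← neg_mul, ← Complex.two_cos]
    push_cast
    ring
  rw [e1] at h
  have h3 := congrArg (fun z : ℂ => ‖z‖ ^ 2) h
  simp only [norm_mul, norm_pow, norm_div, Complex.norm_real, Complex.norm_I] at h3
  rw [KK]
  have e2 : (‖v‖ * 1) ^ 2 = v ^ 2 := by rw [mul_one, Real.norm_eq_abs, sq_abs]
  rw [e2, div_pow, mul_pow ‖(2 : ℝ)‖, Real.norm_eq_abs, Real.norm_eq_abs, Real.norm_eq_abs, sq_abs, sq_abs, sq_abs] at h3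
  calc v ^ 4 * ‖TT (fun x => (tent b x : ℂ)) (v * I)‖ ^ 2 = (v ^ 2 * ‖TT (fun x => (tent b x : ℂ)) (v * I)‖) ^ 2 := by ring
    _ = _ := by rw [h3, div_pow]; ring

lemma KK_le {b : ℝ} (hb : 0 < b) (v : ℝ) : KK b v ≤ (2 * b) ^ 2 := by
  unfold KK
  refine pow_le_pow_left₀ (norm_nonneg _) ?_ 2
  rw [Pool.Agent.Y23.TT_interval hb (Pool.Agent.Y23.Fa_tent hb)]
  have h := intervalIntegral.norm_integral_le_of_norm_le_const (a := -b) (b := b) (C := 1)
    (f := fun x : ℝ => (tent b x : ℂ) * cexp (v * I * x)) fun x _ => by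
      rw [norm_mul, Complex.norm_real, Real.norm_eq_abs, abs_of_nonneg (Pool.Agent.Y23.tent_nonneg hb x)]
      have : (v * I * x : ℂ) = ((v * x : ℝ) : ℂ) * I := by push_cast; ring
      rw [this, Complex.norm_exp_ofReal_mul_I, mul_one]
      exact Pool.Agent.Y23.tent_le hb x
  refine h.trans (le_of_eq ?_)
  rw [one_mul, sub_neg_eq_add, abs_of_pos (by linarith)]
  ring

lemma KK_zero {b : ℝ} (hb : 0 < b) : KK b 0 ≠ 0 := by
  unfold KK
  refine pow_ne_zero 2 (norm_ne_zero_iff.2 ?_)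
  rw [Pool.Agent.Y23.TT_interval hb (Pool.Agent.Y23.Fa_tent hb)]
  have e : (fun x : ℝ => (tent b x : ℂ) * cexp (((0 : ℝ) : ℂ) * I * x)) = fun x : ℝ => ((tent b x : ℝ) : ℂ) := by
    funext x
    simp
  rw [e, intervalIntegral.integral_ofReal]
  refine Complex.ofReal_ne_zero.2 (ne_of_gt ?_)
  refine intervalIntegral.intervalIntegral_pos_of_pos_on ?_ (fun x hx => tent_pos hb (abs_lt.2 hx)) (by linarith)
  have h1 : Integrable (fun x => (tent b x : ℂ)) := (Pool.Agent.Y23.Fa_tent hb).integrable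
  have h2 : Integrable (fun x => tent b x) := by
    have := h1.re
    simpa using this
  exact h2.intervalIntegrable

lemma KK_int {b : ℝ} (hb : 0 < b) : Integrable fun v => (1 + v ^ 2) * KK b v := by
  have hC : ∀ v : ℝ, (1 + v ^ 2) * KK b v ≤ (2 * ((2 * b) ^ 2 + (4 / b) ^ 2)) * (1 + v ^ 2)⁻¹ := by
    intro v
    have hp : 0 < 1 + v ^ 2 := by positivity
    rw [← div_eq_mul_inv, le_div_iff₀ hp]
    have h1 := KK_le hb v
    have h2 : v ^ 4 * KK b v ≤ (4 / b) ^ 2 := by
      rw [KK_mul hb]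
      have h3 := Real.neg_one_le_cos (b * v)
      have h4 := Real.cos_le_one (b * v)
      refine pow_le_pow_left₀ (div_nonneg (by linarith) hb.le) ?_ 2
      exact div_le_div_of_nonneg_right (by linarith) hb.le
    have h0 : 0 ≤ KK b v := by unfold KK; positivity
    have h5 : (1 + v ^ 2) * KK b v * (1 + v ^ 2) ≤ 2 * (KK b v + v ^ 4 * KK b v) := by
      have : 0 ≤ (v ^ 2 - 1) ^ 2 * KK b v := by positivity
      nlinarith
    linarith
  refine (integrable_inv_one_add_sq.const_mul (2 * ((2 * b) ^ 2 + (4 / b) ^ 2))).mono' ?_ (Eventually.of_forall fun v => ?_)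
  · exact ((by fun_prop : Continuous fun v : ℝ => 1 + v ^ 2).mul (KK_cont hb)).aestronglyMeasurable
  · rw [Real.norm_of_nonneg (by unfold KK; positivity)]
    exact hC v

lemma KK_ae {b : ℝ} (hb : 0 < b) : ∀ᵐ v : ℝ, 0 < KK b v := by
  have hc : (Set.range fun n : ℤ => (n : ℝ) * (2 * Real.pi) / b).Countable := Set.countable_range _
  have h0 := hc.measure_zero volume
  rw [← compl_mem_ae_iff] at h0
  filter_upwards [h0] with v hv
  have hne : KK b v ≠ 0 := by
    intro h
    have h1 := KK_mul hb v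
    rw [h, mul_zero] at h1
    have h2 : 2 * (1 - Real.cos (b * v)) / b = 0 := by
      have := h1.symm
      exact pow_eq_zero_iff (n := 2) (by norm_num) |>.1 this
    rw [div_eq_zero_iff] at h2
    have h3 : Real.cos (b * v) = 1 := by
      rcases h2 with h2 | h2
      · linarith
      · exact absurd h2 hb.ne'
    obtain ⟨n, hn⟩ := (Real.cos_eq_one_iff _).1 h3
    refine hv ⟨n, ?_⟩
    simp only [hn]
    field_simp
  have : 0 ≤ KK b v := by unfold KK; positivity
  exact lt_of_le_of_ne this hne.symm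

/-- **kernels with a spectral gap** -/
theorem ker (hPar : Pool.Agent.Q240.PR.S_Par) : Pool.Agent.Q240.PR.S_Ker := by
  intro δ hδ
  have hb : 0 < δ / 2 := by linarith
  have hcos : ∀ s : ℝ, δ ≤ |s| → ∫ v : ℝ, KK (δ / 2) v * Real.cos (s * v) = 0 := by
    intro s hs
    have h := hPar (δ / 2) s _ hb (Pool.Agent.Y23.Fa_tent hb)
    have e : (fun x : ℝ => (tent (δ / 2) (x + s) : ℂ) * (starRingEnd ℂ) (tent (δ / 2) x : ℂ)) = fun _ => 0 := by
      funext x
      by_cases hx : δ / 2 ≤ |x|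
      · rw [tent_zero hb hx]
        simp
      · have hx2 : δ / 2 ≤ |x + s| := by
          have h1 : |s| ≤ |x + s| + |x| := by
            have := abs_sub (x + s) x
            simpa using this
          push Not at hx
          linarith
        rw [tent_zero hb hx2]
        simp
    rw [e, integral_zero, Complex.zero_re, mul_zero] at h
    exact h.symm
  exact ⟨KK (δ / 2), KK_cont hb, fun v => by unfold KK; positivity, KK_zero hb, KK_ae hb, KK_int hb, hcos,
    fun s hs => deriv_cos (KK_cont hb) (fun v => by unfold KK; positivity) (KK_int hb) hcos s hs⟩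

end Pool.Agent.Q124.PR
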